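import Pool.Agent.Helper44.GN.Defs

open Finset MeasureTheory Filter Topology Matrix
open scoped ENNReal ContDiff

namespace Pool.Agent.Helper44.GN

open Pool.Agent.Helper44.GF

/-- The square of the diagonal matrix of the square roots. -/
theorem pje_dd {n : ℕ} (y : Fin n → ℝ) (hy : y ∈ Og n) :
    Matrix.diagonal (fun x => √(y x)) * Matrix.diagonal (fun x => √(y x)) =
      Matrix.diagonal y := by
  rw [Matrix.diagonal_mul_diagonal]
  refine congrArg Matrix.diagonal ?_
  funext x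
  exact Real.mul_self_sqrt (hy x).le

/-- A diagonal entry of a conjugated product. -/
theorem pje_ent {n m : ℕ} (s : Fin n → ℝ) (V W : Matrix (Fin n) (Fin m) ℝ)
    (M : Matrix (Fin m) (Fin m) ℝ) (x : Fin n) :
    (Matrix.diagonal s * V * M * Wᵀ * Matrix.diagonal s) x x =
      s x * s x * (V x ⬝ᵥ M *ᵥ W x) := by
  have h1 : Matrix.diagonal s * V * M * Wᵀ = Matrix.diagonal s * (V * (M * Wᵀ)) := by
    simp only [Matrix.mul_assoc]
  rw [Matrix.mul_diagonal, h1, Matrix.diagonal_mul]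
  have h2 : (V * (M * Wᵀ)) x x = V x ⬝ᵥ M *ᵥ W x := by
    rw [Matrix.mul_apply]
    refine Finset.sum_congr rfl fun i _ => ?_
    refine congrArg (fun t => V x i * t) ?_
    rw [Matrix.mul_apply]
    rfl
  rw [h2]
  ring

/-- The product of the two projections. -/
theorem pje_mid {n m : ℕ} (V W : Matrix (Fin n) (Fin m) ℝ) (y : Fin n → ℝ) (hy : y ∈ Og n) :
    PJ V y * PJ W y = Matrix.diagonal (fun x => √(y x)) * V *
      ((TT V V y)⁻¹ * TT V W y * (TT W W y)⁻¹) * Wᵀ * Matrix.diagonal (fun x => √(y x)) := by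
  have h1 : PJ V y * PJ W y = Matrix.diagonal (fun x => √(y x)) * V * (TT V V y)⁻¹ *
      (Vᵀ * (Matrix.diagonal (fun x => √(y x)) * Matrix.diagonal (fun x => √(y x))) * W) *
      (TT W W y)⁻¹ * Wᵀ * Matrix.diagonal (fun x => √(y x)) := by
    unfold PJ
    simp only [Matrix.mul_assoc]
  rw [h1, pje_dd y hy]
  have h2 : Vᵀ * Matrix.diagonal y * W = TT V W y := rfl
  rw [h2]
  simp only [Matrix.mul_assoc]

/-- The product of the three projections. -/
theorem pje_tri {n m : ℕ} (V W : Matrix (Fin n) (Fin m) ℝ) (y : Fin n → ℝ) (hy : y ∈ Og n) :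
    PJ V y * PJ W y * PJ V y = Matrix.diagonal (fun x => √(y x)) * V *
      ((TT V V y)⁻¹ * TT V W y * (TT W W y)⁻¹ * TT W V y * (TT V V y)⁻¹) * Vᵀ *
        Matrix.diagonal (fun x => √(y x)) := by
  rw [pje_mid V W y hy]
  have h1 : Matrix.diagonal (fun x => √(y x)) * V *
      ((TT V V y)⁻¹ * TT V W y * (TT W W y)⁻¹) * Wᵀ * Matrix.diagonal (fun x => √(y x)) *
      PJ V y = Matrix.diagonal (fun x => √(y x)) * V *
      ((TT V V y)⁻¹ * TT V W y * (TT W W y)⁻¹) *
      (Wᵀ * (Matrix.diagonal (fun x => √(y x)) * Matrix.diagonal (fun x => √(y x))) * V) *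
      (TT V V y)⁻¹ * Vᵀ * Matrix.diagonal (fun x => √(y x)) := by
    unfold PJ
    simp only [Matrix.mul_assoc]
  rw [h1, pje_dd y hy]
  have h2 : Wᵀ * Matrix.diagonal y * V = TT W V y := rfl
  rw [h2]
  simp only [Matrix.mul_assoc]

/-- The projections without square roots. -/
theorem st_PJE : ST_PJE := by
  intro n m V W y hy
  have hs : ∀ x, √(y x) * √(y x) = y x := fun x => Real.mul_self_sqrt (hy x).le
  refine ⟨fun x => ?_, fun x => ?_, ?_, fun x => ?_⟩
  · unfold lv PJ
    rw [pje_ent (fun x => √(y x)) V V (TT V V y)⁻¹ x]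
    simp only [hs x]
  · unfold kp
    rw [pje_mid V W y hy, pje_ent (fun x => √(y x)) V W _ x]
    simp only [hs x]
  · rw [pje_mid V W y hy]
    have h1 : Matrix.diagonal (fun x => √(y x)) * V *
        ((TT V V y)⁻¹ * TT V W y * (TT W W y)⁻¹) * Wᵀ * Matrix.diagonal (fun x => √(y x)) =
        (Matrix.diagonal (fun x => √(y x)) * V) *
        ((TT V V y)⁻¹ * TT V W y * (TT W W y)⁻¹ * Wᵀ * Matrix.diagonal (fun x => √(y x))) := by
      simp only [Matrix.mul_assoc]
    rw [h1, Matrix.trace_mul_comm]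
    have h2 : (TT V V y)⁻¹ * TT V W y * (TT W W y)⁻¹ * Wᵀ * Matrix.diagonal (fun x => √(y x)) *
        (Matrix.diagonal (fun x => √(y x)) * V) =
        (TT V V y)⁻¹ * TT V W y * (TT W W y)⁻¹ *
        (Wᵀ * (Matrix.diagonal (fun x => √(y x)) * Matrix.diagonal (fun x => √(y x))) * V) := by
      simp only [Matrix.mul_assoc]
    rw [h2, pje_dd y hy]
    rfl
  · rw [pje_tri V W y hy, pje_ent (fun x => √(y x)) V V _ x]
    simp only [hs x]

end Pool.Agent.Helper44.GN
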